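import Mathlib
import Pool.Agent.Helper835_PCX.Distinct

/-!
# Bounded degree coboundary expanders with permutation coefficients

There are connected finite polygonal complexes with bounded vertex degrees and with more and more vertices whose
Cheeger constants `h₀` and `h₁` with coefficients in all symmetric groups are bounded away from zero.  All three
distributions are uniform, and no polygon is repeated: the perimeters of the polygons of one complex are pairwise
different.  The perimeters are not bounded.  The underlying graphs are Cayley graphs with a
loop added at every vertex; the lower bound for `h₁` is a cone argument.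
-/

set_option autoImplicit false

open Pool.Agent.Helper835_PCX

namespace Pool.Agent.Results.MP_d4a15d_co.LongPolygons

/-- there are `k`, `lam > 0` and a sequence of connected finite polygonal complexes with all vertex degrees at most `k`,
with strictly increasing numbers of vertices (hence pairwise not isomorphic), with polygons of pairwise different
perimeters, with uniform distributions `μ₁` and `μ₀`, and with both Cheeger constants with permutation
coefficients at least `lam` -/
theorem result : ∃ (k : ℕ) (lam : ℝ), 0 < lam ∧ ∃ X : ℕ → PolyCx,
    (∀ m, (X m).Connected) ∧ (∀ m v, (X m).deg v ≤ k) ∧
    (StrictMono fun m => Fintype.card (X m).V) ∧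
    (∀ m, Function.Injective fun p => ((X m).att p).length) ∧
    (∀ m e, (X m).mu1 e = 1 / Fintype.card (X m).E) ∧
    (∀ m v, (X m).mu0 v = 1 / Fintype.card (X m).V) ∧
    (∀ m m', m ≠ m' → ¬ (X m).Iso (X m')) ∧
    ∀ m, lam ≤ (X m).h0 ∧ lam ≤ (X m).h1 :=
  Pool.Agent.Helper835_PCX.Distinct.final2

end Pool.Agent.Results.MP_d4a15d_co.LongPolygons
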